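import Pool.Agent.H31.BOU.Targets1
import Pool.Agent.H31.BOU.Targets2

/-!
# FTG: Fourier transform and norms of the localised function
-/

set_option autoImplicit false

namespace Pool.Agent.H50.BOU

open Finset Pool.Agent.H31.BOU

theorem ftg_sub (T j : ℕ) (κ : ℤ) (t : ℕ) (ht : t ≤ T) :
    Ico ((κ - t) * 2 ^ j) ((κ - t) * 2 ^ j + 2 ^ (j + 1)) ⊆ win (rr T) j κ := by
  unfold win
  have h2 : (0 : ℤ) < 2 ^ j := by positivity
  have hr : ((rr T : ℕ) : ℤ) = 2 * T + 16 := by unfold rr; push_cast; ring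
  have ht' : (t : ℤ) ≤ T := by exact_mod_cast ht
  have hT : (0 : ℤ) ≤ T := by positivity
  have ht0 : (0 : ℤ) ≤ t := by positivity
  apply Ico_subset_Ico
  · apply mul_le_mul_of_nonneg_right _ h2.le
    rw [hr]
    linarith
  · have e : (((2 * rr T * 2 ^ j : ℕ)) : ℤ) = 2 * (2 * T + 16) * 2 ^ j := by
      push_cast
      rw [hr]
    rw [e, hr, pow_succ]
    have h3 : (0 : ℤ) ≤ (2 * T + 14 + t) * 2 ^ j := by positivity
    nlinarith [h3]

theorem pf_FTG (hH : T_HAT) : T_FTG := by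
  obtain ⟨h1, h2, h3⟩ := hH
  intro T G j κ t ht hG
  set x : ℤ := (κ - t) * 2 ^ j with hx
  have hsub : Ico x (x + 2 ^ (j + 1)) ⊆ win (rr T) j κ := ftg_sub T j κ t ht
  have hz : ∀ v, v ∉ Ico x (x + 2 ^ (j + 1)) → hat j (v - x) = 0 := by
    intro v hv
    rw [mem_Ico, not_and_or, not_le, not_lt] at hv
    apply (h2 j (v - x)).2.2.2
    rcases hv with h | h
    · left; linarith
    · right; linarith
  have hs1 : ∑ v ∈ win (rr T) j κ, hat j (v - x) = 1 := by
    rw [← Finset.sum_subset hsub (fun v _ hv => hz v hv), ← h3 j]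
    refine Finset.sum_nbij' (fun v => v - x) (fun v => v + x) ?_ ?_ ?_ ?_ ?_
    · intro v hv
      rw [mem_Ico] at hv ⊢
      constructor <;> linarith [hv.1, hv.2]
    · intro v hv
      rw [mem_Ico] at hv ⊢
      constructor <;> linarith [hv.1, hv.2]
    · intro v _
      ring
    · intro v _
      ring
    · intro v _
      rfl
  refine ⟨?_, ?_, ?_⟩
  · intro β
    unfold ft gm ph
    have e := h1 (fun v => G v * ee (-(β * (v : ℝ)))) j x
    rw [e]
    rw [mul_div_cancel_left₀ _ (pow_ne_zero j (by norm_num : (4 : ℂ) ≠ 0))]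
    rw [← Finset.sum_subset hsub]
    · refine sum_congr rfl fun v _ => ?_
      rw [mul_assoc]
    · intro v _ hv
      rw [← hx, hz v hv]
      simp
  · have h4 : ∀ v ∈ win (rr T) j κ, ‖gm G j κ t v‖ ≤ hat j (v - x) := by
      intro v _
      unfold gm
      rw [norm_mul, Complex.norm_real, Real.norm_of_nonneg (h2 j _).1]
      exact mul_le_of_le_one_right (h2 j _).1 (hG v)
    exact (sum_le_sum h4).trans hs1.le
  · have h4 : ∀ v ∈ win (rr T) j κ, ‖gm G j κ t v‖ ^ 2 ≤ hat j (v - x) * (1 / 2 ^ j) := by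
      intro v _
      unfold gm
      rw [norm_mul, Complex.norm_real, Real.norm_of_nonneg (h2 j _).1, mul_pow, sq (hat _ _)]
      have h5 : ‖G v‖ ^ 2 ≤ 1 := pow_le_one₀ (norm_nonneg _) (hG v)
      calc hat j (v - x) * hat j (v - x) * ‖G v‖ ^ 2
          ≤ hat j (v - x) * hat j (v - x) * 1 :=
            mul_le_mul_of_nonneg_left h5 (mul_nonneg (h2 j _).1 (h2 j _).1)
        _ = hat j (v - x) * hat j (v - x) := mul_one _
        _ ≤ hat j (v - x) * (1 / 2 ^ j) := mul_le_mul_of_nonneg_left (h2 j _).2.1 (h2 j _).1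
    refine (sum_le_sum h4).trans ?_
    rw [← sum_mul, hs1, one_mul]

end Pool.Agent.H50.BOU
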