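import Pool.Agent.H31.BOU.Targets2

/-!
# TBS: the sum of the transitional and boundary coefficients
-/

set_option autoImplicit false

namespace Pool.Agent.H50.BOU

open Finset Pool.Agent.H31.BOU

theorem swap4 {ι : Type} [Fintype ι] (c : ι → ℝ) (w : ℕ → ℝ) (n : ℕ) (m : ℕ → ℕ)
    (h : ℕ → ℕ → ℕ → ι → ℝ) :
    ∑ j ∈ range n, w j * ∑ p ∈ range (m j), ∑ s ∈ range (m j), ∑ i, c i * h j p s i =
      ∑ i, c i * ∑ j ∈ range n, w j * ∑ p ∈ range (m j), ∑ s ∈ range (m j), h j p s i := by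
  have h1 : ∀ j, ∑ p ∈ range (m j), ∑ s ∈ range (m j), ∑ i, c i * h j p s i =
      ∑ i, c i * ∑ p ∈ range (m j), ∑ s ∈ range (m j), h j p s i := by
    intro j
    calc ∑ p ∈ range (m j), ∑ s ∈ range (m j), ∑ i, c i * h j p s i
        = ∑ p ∈ range (m j), ∑ i, ∑ s ∈ range (m j), c i * h j p s i :=
          sum_congr rfl fun p _ => sum_comm
      _ = ∑ i, ∑ p ∈ range (m j), ∑ s ∈ range (m j), c i * h j p s i := sum_comm
      _ = ∑ i, c i * ∑ p ∈ range (m j), ∑ s ∈ range (m j), h j p s i := by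
          refine sum_congr rfl fun i _ => ?_
          rw [mul_sum]
          refine sum_congr rfl fun p _ => ?_
          rw [mul_sum]
  calc ∑ j ∈ range n, w j * ∑ p ∈ range (m j), ∑ s ∈ range (m j), ∑ i, c i * h j p s i
      = ∑ j ∈ range n, ∑ i, c i * (w j * ∑ p ∈ range (m j), ∑ s ∈ range (m j), h j p s i) := by
        refine sum_congr rfl fun j _ => ?_
        rw [h1, mul_sum]
        refine sum_congr rfl fun i _ => ?_
        ring
    _ = ∑ i, ∑ j ∈ range n, c i * (w j * ∑ p ∈ range (m j), ∑ s ∈ range (m j), h j p s i) :=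
        sum_comm
    _ = _ := by
        refine sum_congr rfl fun i _ => ?_
        rw [mul_sum]

open Classical in
theorem pf_TBS (hB : T_BDN) (hT : T_TRN) : T_TBS := by
  intro T
  have hK : (0 : ℝ) < K0 := by unfold K0; positivity
  refine ⟨(8 * (rr T : ℝ) + 10) * K0, by positivity, ?_⟩
  intro ι θ _ _ J q G Q P hyp
  have hq : 0 < q := lt_of_lt_of_le one_pos hyp.q1
  set A : ℕ → ℕ → ℕ → ι → ℝ := fun j p s i =>
    (if meets (rr T) (P.sc i) (P.mm i) j ((p : ℤ) + s) ∧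
      ¬ long (rr T) (P.sc i) (P.mm i) j ((p : ℤ) + s) then 1 else 0) with hA
  set B : ℕ → ℕ → ℕ → ι → ℝ := fun j p s i =>
    (if long (rr T) (P.sc i) (P.mm i) j ((p : ℤ) + s) ∧
      far (cc T) (1 / 2 * q ^ 40) Q (P.be i) j ((p : ℤ) + s) ∧
        ¬ far (cc T) (3 / 2 * q ^ 40) Q (P.be i) j ((p : ℤ) + s) then 1 else 0) with hBd
  have h1 : ∀ j p s : ℕ, tbs (cc T) (rr T) q Q P j ((p : ℤ) + s) ≤
      ∑ i, ‖P.co i‖ * (A j p s i + B j p s i) := by
    intro j p s
    unfold tbs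
    refine sum_le_sum fun i _ => ?_
    have hAn : 0 ≤ A j p s i := by
      simp only [hA]
      split_ifs <;> norm_num
    have hBn : 0 ≤ B j p s i := by
      simp only [hBd]
      split_ifs <;> norm_num
    by_cases htb : tb (cc T) (rr T) q Q P i j ((p : ℤ) + s)
    · rw [if_pos htb]
      have h2 : 1 ≤ A j p s i + B j p s i := by
        rcases htb with h3 | h3
        · have : A j p s i = 1 := by
            simp only [hA]
            rw [if_pos h3]
          linarith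
        · have : B j p s i = 1 := by
            simp only [hBd]
            rw [if_pos h3]
          linarith
      exact le_mul_of_one_le_right (norm_nonneg _) h2
    · rw [if_neg htb]
      exact mul_nonneg (norm_nonneg _) (add_nonneg hAn hBn)
  have h2 : ∑ j ∈ range (J + 1), (4 : ℝ) ^ j * ∑ p ∈ range (2 ^ (J - j)),
      ∑ s ∈ range (2 ^ (J - j)), tbs (cc T) (rr T) q Q P j ((p : ℤ) + s) ≤
      ∑ j ∈ range (J + 1), (4 : ℝ) ^ j * ∑ p ∈ range (2 ^ (J - j)),
        ∑ s ∈ range (2 ^ (J - j)), ∑ i, ‖P.co i‖ * (A j p s i + B j p s i) := by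
    refine sum_le_sum fun j _ => ?_
    refine mul_le_mul_of_nonneg_left ?_ (by positivity)
    exact sum_le_sum fun p _ => sum_le_sum fun s _ => h1 j p s
  refine h2.trans ?_
  rw [swap4]
  have h3 : ∀ i, ∑ j ∈ range (J + 1), (4 : ℝ) ^ j * ∑ p ∈ range (2 ^ (J - j)),
      ∑ s ∈ range (2 ^ (J - j)), (A j p s i + B j p s i) ≤
      (8 * (rr T : ℝ) + 10) * 2 ^ J * 2 ^ (P.sc i) := by
    intro i
    have hb := hB (rr T) J (P.sc i) (P.mm i) (hyp.Ps i).1
    have ht := hT θ (cc T) (rr T) (q ^ 40) Q (P.be i) J (P.sc i) (P.mm i) (by positivity)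
      (by unfold rr; omega)
    have e : ∑ j ∈ range (J + 1), (4 : ℝ) ^ j * ∑ p ∈ range (2 ^ (J - j)),
        ∑ s ∈ range (2 ^ (J - j)), (A j p s i + B j p s i) =
        (∑ j ∈ range (J + 1), (4 : ℝ) ^ j * ∑ p ∈ range (2 ^ (J - j)),
          ∑ s ∈ range (2 ^ (J - j)), A j p s i) +
        ∑ j ∈ range (J + 1), (4 : ℝ) ^ j * ∑ p ∈ range (2 ^ (J - j)),
          ∑ s ∈ range (2 ^ (J - j)), B j p s i := by
      rw [← sum_add_distrib]
      refine sum_congr rfl fun j _ => ?_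
      rw [← mul_add, ← sum_add_distrib]
      congr 1
      refine sum_congr rfl fun p _ => ?_
      rw [← sum_add_distrib]
    rw [e]
    refine (add_le_add hb ht).trans (le_of_eq ?_)
    ring
  have h4 : ∑ i, ‖P.co i‖ * ∑ j ∈ range (J + 1), (4 : ℝ) ^ j * ∑ p ∈ range (2 ^ (J - j)),
      ∑ s ∈ range (2 ^ (J - j)), (A j p s i + B j p s i) ≤
      (8 * (rr T : ℝ) + 10) * 2 ^ J * ∑ i, 2 ^ (P.sc i) * ‖P.co i‖ := by
    rw [mul_sum]
    refine sum_le_sum fun i _ => ?_
    refine (mul_le_mul_of_nonneg_left (h3 i) (norm_nonneg _)).trans (le_of_eq ?_)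
    ring
  refine h4.trans ?_
  have h5 : ∑ i, (2 : ℝ) ^ (P.sc i) * ‖P.co i‖ ≤ K0 * q ^ 32 * 2 ^ J := by
    refine le_of_sq_le_sq ?_ (by positivity)
    have h6 := Finset.sum_sq_le_sum_mul_sum_of_sq_le_mul (Finset.univ : Finset ι)
      (r := fun i => (2 : ℝ) ^ (P.sc i) * ‖P.co i‖)
      (f := fun i => (2 : ℝ) ^ (P.sc i) * ‖P.co i‖ ^ 2)
      (g := fun i => (2 : ℝ) ^ (P.sc i)) (fun i _ => by positivity) (fun i _ => by positivity)
      (fun i _ => le_of_eq (by ring))
    refine h6.trans ?_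
    refine (mul_le_mul hyp.Pe hyp.Pn (sum_nonneg fun i _ => by positivity)
      (by positivity)).trans (le_of_eq ?_)
    ring
  refine (mul_le_mul_of_nonneg_left h5 (by positivity)).trans (le_of_eq ?_)
  have h7 : (4 : ℝ) ^ J = 2 ^ J * 2 ^ J := by
    rw [← mul_pow]
    norm_num
  rw [h7]
  ring

end Pool.Agent.H50.BOU
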